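import Mathlib

set_option autoImplicit false

namespace Pool.Agent.H.MP_badb58_gt

open Set Topology Filter

def SO {Y : Type} [TopologicalSpace Y] (F : Set (Set Y)) : Prop :=
  (∀ U ∈ F, IsOpen U) ∧ (∀ U V : Set Y, U ∈ F → IsOpen V → U ⊆ V → V ∈ F) ∧
  (∀ D : Set (Set Y), D.Nonempty → (∀ U ∈ D, IsOpen U) → DirectedOn (· ⊆ ·) D → ⋃₀ D ∈ F →
    ∃ U ∈ D, U ∈ F)

def FC (Y : Type) [TopologicalSpace Y] : Prop :=
  ∀ F : Set (Set Y), SO F → ∀ U ∈ F, ∃ E : Set Y, E.Finite ∧ E ⊆ U ∧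
    ∀ V : Set Y, IsOpen V → E ⊆ V → V ∈ F

def Cons (Y : Type) [TopologicalSpace Y] : Prop :=
  ∀ F : Set (Set Y), SO F → ∀ U ∈ F, ∃ K : Set Y, IsCompact K ∧ K ⊆ U ∧
    ∀ V : Set Y, IsOpen V → K ⊆ V → V ∈ F

lemma FC.cons {Y : Type} [TopologicalSpace Y] (h : FC Y) : Cons Y := by
  intro F hF U hU
  obtain ⟨E, h1, h2, h3⟩ := h F hF U hU
  exact ⟨E, h1.isCompact, h2, h3⟩

lemma SO.seq {Y : Type} [TopologicalSpace Y] {F : Set (Set Y)} (hF : SO F) {U : Set Y}
    (hU : U ∈ F) (W : ℕ → Set Y) (hm : Monotone W) (ho : ∀ n, IsOpen (W n))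
    (hc : ∀ x ∈ U, ∃ n, x ∈ W n) : ∃ n, W n ∈ F := by
  obtain ⟨_, ⟨n, rfl⟩, h⟩ := hF.2.2 (range W) (range_nonempty W)
    (by rintro _ ⟨n, rfl⟩; exact ho n) (directedOn_range.2 hm.directed_le)
    (hF.2.1 U _ hU (by rw [sUnion_range]; exact isOpen_iUnion ho)
      (fun x hx => by rw [sUnion_range]; exact mem_iUnion.2 (hc x hx)))
  exact ⟨n, h⟩

def YY : Type := ℕ × ℕ

instance : TopologicalSpace YY where
  IsOpen U := (∀ n m k, m ≤ k → ((n, m) : YY) ∈ U → ((n, k) : YY) ∈ U) ∧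
    (U.Nonempty → ∀ n, ∃ m, ((n, m) : YY) ∈ U)
  isOpen_univ := ⟨fun _ _ _ _ _ => trivial, fun _ _ => ⟨0, trivial⟩⟩
  isOpen_inter U V hU hV := by
    refine ⟨fun n m k h hm => ⟨hU.1 n m k h hm.1, hV.1 n m k h hm.2⟩, ?_⟩
    rintro ⟨x, hx⟩ n
    obtain ⟨m, hm⟩ := hU.2 ⟨x, hx.1⟩ n
    obtain ⟨k, hk⟩ := hV.2 ⟨x, hx.2⟩ n
    exact ⟨m + k, hU.1 n m _ (by omega) hm, hV.1 n k _ (by omega) hk⟩
  isOpen_sUnion S hS := by
    refine ⟨?_, ?_⟩
    · rintro n m k h ⟨U, hU, hm⟩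
      exact ⟨U, hU, (hS U hU).1 n m k h hm⟩
    · rintro ⟨x, U, hU, hx⟩ n
      obtain ⟨m, hm⟩ := (hS U hU).2 ⟨x, hx⟩ n
      exact ⟨m, U, hU, hm⟩

lemma openY {U : Set YY} : IsOpen U ↔ (∀ n m k, m ≤ k → ((n, m) : YY) ∈ U → ((n, k) : YY) ∈ U) ∧
    (U.Nonempty → ∀ n, ∃ m, ((n, m) : YY) ∈ U) := Iff.rfl

def UY (f : ℕ → ℕ) : Set YY := {a | f a.1 ≤ a.2}

lemma UY_open (f : ℕ → ℕ) : IsOpen (UY f) :=
  openY.2 ⟨fun _ _ _ h hm => le_trans hm h, fun _ n => ⟨f n, le_refl (f n)⟩⟩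

instance : T0Space YY := by
  have key : ∀ a b : YY, Inseparable a b → b.1 = a.1 ∧ b.2 ≤ a.2 := by
    intro a b h
    have h1 := h.mem_open_iff (UY_open fun i => if i = a.1 then a.2 + 1 else 0)
    simp only [UY, mem_ofPred_eq, if_true] at h1
    by_cases h2 : b.1 = a.1
    · rw [if_pos h2] at h1; omega
    · rw [if_neg h2] at h1; omega
  exact ⟨fun a b h => Prod.ext (key b a h.symm).1 (le_antisymm (key b a h.symm).2 (key a b h).2)⟩

lemma FC_Y : FC YY := by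
  intro F hF U hU
  rcases U.eq_empty_or_nonempty with rfl | hne
  · exact ⟨∅, finite_empty, subset_rfl, fun V hV h => hF.2.1 _ _ hU hV h⟩
  classical
  have hUo := openY.1 (hF.1 U hU)
  let f : ℕ → ℕ := fun n => Nat.find (hUo.2 hne n)
  have hf : ∀ n, ((n, f n) : YY) ∈ U := fun n => Nat.find_spec (hUo.2 hne n)
  have hf' : ∀ n m, ((n, m) : YY) ∈ U → f n ≤ m := fun n m h => Nat.find_min' _ h
  by_contra hcon
  push Not at hcon
  have h1 : ∀ N : ℕ, ∃ V : Set YY, IsOpen V ∧ (∀ i ≤ N, ((i, f i) : YY) ∈ V) ∧ V ∉ F := by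
    intro N
    obtain ⟨V, h1, h2, h3⟩ := hcon ((fun i => ((i, f i) : YY)) '' Iic N)
      ((finite_Iic N).image _) (by rintro _ ⟨i, -, rfl⟩; exact hf i)
    exact ⟨V, h1, fun i hi => h2 ⟨i, hi, rfl⟩, h3⟩
  choose V hVo hV hVF using h1
  choose g hg using fun k n => (openY.1 (hVo k)).2 ⟨_, hV k 0 (Nat.zero_le k)⟩ n
  obtain ⟨N, hN⟩ := hF.seq hU (fun N => {a | ∀ k, N ≤ k → a ∈ V k})
    (fun N M h a ha k hk => ha k (h.trans hk))
    (fun N => openY.2 ⟨fun n m k h hm j hj => (openY.1 (hVo j)).1 n m k h (hm j hj), fun _ n => by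
      refine ⟨f n + ∑ k ∈ Finset.range n, g k n, fun k _ => ?_⟩
      by_cases hk : k < n
      · refine (openY.1 (hVo k)).1 n _ _ ?_ (hg k n)
        have := Finset.single_le_sum (f := fun k => g k n) (fun _ _ => Nat.zero_le _)
          (Finset.mem_range.2 hk)
        omega
      · exact (openY.1 (hVo k)).1 n _ _ (Nat.le_add_right _ _) (hV k n (not_lt.1 hk))⟩)
    (fun a ha => ⟨a.1, fun k hk => (openY.1 (hVo k)).1 a.1 _ a.2 (hf' a.1 a.2 ha) (hV k a.1 hk)⟩)
  exact hVF N (hF.2.1 _ _ hN (hVo N) fun a ha => ha N le_rfl)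

def ZZ : Type := ℕ → ℕ

instance : TopologicalSpace ZZ where
  IsOpen U := ∀ f ∈ U, ∃ n, ∀ g : ZZ, (∀ i < n, g i ≤ f i) → g ∈ U
  isOpen_univ := fun _ _ => ⟨0, fun _ _ => trivial⟩
  isOpen_inter U V hU hV := by
    intro f hf
    obtain ⟨n, hn⟩ := hU f hf.1
    obtain ⟨m, hm⟩ := hV f hf.2
    exact ⟨n + m, fun g hg => ⟨hn g fun i hi => hg i (by omega), hm g fun i hi => hg i (by omega)⟩⟩
  isOpen_sUnion S hS := by
    rintro f ⟨U, hU, hf⟩
    obtain ⟨n, hn⟩ := hS U hU f hf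
    exact ⟨n, fun g hg => ⟨U, hU, hn g hg⟩⟩

lemma openZ {U : Set ZZ} : IsOpen U ↔ ∀ f ∈ U, ∃ n, ∀ g : ZZ, (∀ i < n, g i ≤ f i) → g ∈ U :=
  Iff.rfl

def BZ (n k : ℕ) : Set ZZ := {h | h n ≤ k}

lemma BZ_open (n k : ℕ) : IsOpen (BZ n k) :=
  openZ.2 fun _ hf => ⟨n + 1, fun _ hg => (hg n (Nat.lt_succ_self n)).trans hf⟩

def CZ (n : ℕ) (f : ZZ) : Set ZZ := {h | ∀ i < n, h i ≤ f i}

lemma CZ_open (n : ℕ) (f : ZZ) : IsOpen (CZ n f) :=
  openZ.2 fun _ hf => ⟨n, fun _ hg i hi => (hg i hi).trans (hf i hi)⟩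

instance : T0Space ZZ := by
  have key : ∀ a b : ZZ, Inseparable a b → ∀ n, b n ≤ a n := fun a b h n =>
    (h.mem_open_iff (BZ_open n (a n))).1 (le_refl (a n))
  exact ⟨fun a b h => funext fun n => le_antisymm (key b a h.symm n) (key a b h n)⟩

lemma FC_Z : FC ZZ := by
  intro F hF U hU
  classical
  choose! N hN using openZ.1 (hF.1 U hU)
  let G : Finset ZZ → Set ZZ := fun T => ⋃ f ∈ T, CZ (N f) f
  have hGo : ∀ T, IsOpen (G T) := fun T => isOpen_biUnion fun f _ => CZ_open _ _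
  obtain ⟨_, ⟨T, hT, rfl⟩, hTF⟩ := hF.2.2 (G '' {T | (T : Set ZZ) ⊆ U}) ⟨G ∅, ∅, by simp, rfl⟩
    (by rintro _ ⟨T, -, rfl⟩; exact hGo T)
    (by
      rintro _ ⟨S, hS, rfl⟩ _ ⟨T, hT, rfl⟩
      refine ⟨G (S ∪ T), ⟨S ∪ T, ?_, rfl⟩, ?_, ?_⟩
      · show ((S ∪ T : Finset ZZ) : Set ZZ) ⊆ U
        rw [Finset.coe_union]; exact union_subset hS hT
      · exact biUnion_subset_biUnion_left (s := (S : Set ZZ)) (s' := ((S ∪ T : Finset ZZ) : Set ZZ))
          (by simp)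
      · exact biUnion_subset_biUnion_left (s := (T : Set ZZ)) (s' := ((S ∪ T : Finset ZZ) : Set ZZ))
          (by simp))
    (hF.2.1 U _ hU (isOpen_sUnion (by rintro _ ⟨T, -, rfl⟩; exact hGo T)) (fun f hf =>
      ⟨G {f}, ⟨{f}, by simpa using hf, rfl⟩, by
        simp only [G, Finset.mem_singleton, iUnion_iUnion_eq_left]
        exact fun i _ => le_rfl⟩))
  have step : ∀ (n : ℕ) (W : F), ∃ k, W.1 ∩ BZ n k ∈ F := fun n W =>
    hF.seq W.2 (fun k => W.1 ∩ BZ n k) (fun _ _ h _ hx => ⟨hx.1, le_trans hx.2 h⟩)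
      (fun k => (hF.1 _ W.2).inter (BZ_open n k)) (fun x hx => ⟨x n, hx, le_refl (x n)⟩)
  choose kk hkk using step
  let W : ℕ → F := fun n => Nat.rec ⟨G T, hTF⟩ (fun n W => ⟨W.1 ∩ BZ n (kk n W), hkk n W⟩) n
  let g : ZZ := fun n => kk n (W n)
  have hW : ∀ n, (W n).1 ⊆ G T ∩ CZ n g := by
    intro n
    induction n with
    | zero => exact fun x hx => ⟨hx, fun i hi => absurd hi (Nat.not_lt_zero i)⟩
    | succ n ih =>
      intro x hx
      refine ⟨(ih hx.1).1, fun i hi => ?_⟩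
      rcases Nat.lt_succ_iff_lt_or_eq.1 hi with h | rfl
      · exact (ih hx.1).2 i h
      · exact hx.2
  let φ : ZZ → ZZ := fun f i => if i < N f then min (f i) (g i) else g i
  refine ⟨φ '' T, T.finite_toSet.image _, ?_, fun V hV hE => ?_⟩
  · rintro _ ⟨f, hf, rfl⟩
    refine hN f (hT hf) _ fun i hi => ?_
    simp only [φ, if_pos hi]; exact min_le_left _ _
  · choose! M hM using openZ.1 hV
    refine hF.2.1 _ _ (W (T.sup fun f => M (φ f))).2 hV fun h hh => ?_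
    obtain ⟨h1, h2⟩ := hW _ hh
    obtain ⟨f, hf, h3⟩ := mem_iUnion₂.1 h1
    refine hM (φ f) (hE ⟨f, hf, rfl⟩) h fun i hi => ?_
    have h4 := h2 i (hi.trans_le (Finset.le_sup (f := fun f => M (φ f)) hf))
    simp only [φ]
    split_ifs with h5
    · exact le_min (h3 i h5) h4
    · exact h4

lemma glue {A X : Type} [TopologicalSpace A] [TopologicalSpace X] (hA : FC A) (e : A → X)
    (he : Continuous e) (R E0 : Set X) (hE0 : E0.Finite)
    (hop : ∀ S : Set A, IsOpen S → IsOpen (e '' S ∪ R)) (F : Set (Set X)) (hF : SO F)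
    (U : Set X) (hU : U ∈ F) (hU' : U ⊆ e '' (e ⁻¹' U) ∪ R) (hE : E0 ⊆ U)
    (hR : ∀ V : Set X, IsOpen V → E0 ⊆ V → R ⊆ V) :
    ∃ E : Set X, E.Finite ∧ E ⊆ U ∧ ∀ V : Set X, IsOpen V → E ⊆ V → V ∈ F := by
  have hUo := (hF.1 U hU).preimage he
  obtain ⟨E, h1, h2, h3⟩ := hA {S | IsOpen S ∧ e '' S ∪ R ∈ F}
    ⟨fun S hS => hS.1, fun S S' hS hS' h => ⟨hS', hF.2.1 _ _ hS.2 (hop _ hS')
      (union_subset_union_left _ (image_mono h))⟩, by
      intro D hD hDo hdir hDF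
      obtain ⟨_, ⟨S, hS, rfl⟩, h⟩ := hF.2.2 ((fun S => e '' S ∪ R) '' D) (hD.image _)
        (by rintro _ ⟨S, hS, rfl⟩; exact hop S (hDo S hS))
        (by
          rintro _ ⟨S, hS, rfl⟩ _ ⟨T, hT, rfl⟩
          obtain ⟨W, hW, h1, h2⟩ := hdir S hS T hT
          exact ⟨_, ⟨W, hW, rfl⟩, union_subset_union_left _ (image_mono h1),
            union_subset_union_left _ (image_mono h2)⟩)
        (hF.2.1 _ _ hDF.2 (isOpen_sUnion (by rintro _ ⟨S, hS, rfl⟩; exact hop S (hDo S hS))) (by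
          rintro x (⟨a, ⟨S, hS, ha⟩, rfl⟩ | hx)
          · exact ⟨_, ⟨S, hS, rfl⟩, Or.inl ⟨a, ha, rfl⟩⟩
          · obtain ⟨S, hS⟩ := hD
            exact ⟨_, ⟨S, hS, rfl⟩, Or.inr hx⟩))
      exact ⟨S, hS, hDo S hS, h⟩⟩ (e ⁻¹' U) ⟨hUo, hF.2.1 _ _ hU (hop _ hUo) hU'⟩
  refine ⟨e '' E ∪ E0, (h1.image e).union hE0, union_subset (image_subset_iff.2 h2) hE,
    fun V hV h => ?_⟩
  refine hF.2.1 _ _ (h3 (e ⁻¹' V) (hV.preimage he)
    (image_subset_iff.1 (subset_union_left.trans h))).2 hV ?_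
  exact union_subset (image_preimage_subset _ _) (hR V hV (subset_union_right.trans h))

inductive XX : Type
  | p : XX
  | y : YY → XX
  | z : ZZ → XX

open XX

instance : TopologicalSpace XX where
  IsOpen U := IsOpen (y ⁻¹' U) ∧ IsOpen (z ⁻¹' U) ∧ ∀ b, z b ∈ U → ∀ a, y a ∈ U
  isOpen_univ := ⟨isOpen_univ, isOpen_univ, fun _ _ _ => trivial⟩
  isOpen_inter U V hU hV := ⟨hU.1.inter hV.1, hU.2.1.inter hV.2.1,
    fun b hb a => ⟨hU.2.2 b hb.1 a, hV.2.2 b hb.2 a⟩⟩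
  isOpen_sUnion S hS := by
    refine ⟨?_, ?_, ?_⟩
    · rw [preimage_sUnion]; exact isOpen_biUnion fun U hU => (hS U hU).1
    · rw [preimage_sUnion]; exact isOpen_biUnion fun U hU => (hS U hU).2.1
    · rintro b ⟨U, hU, hb⟩ a
      exact ⟨U, hU, (hS U hU).2.2 b hb a⟩

lemma openX {U : Set XX} : IsOpen U ↔
    IsOpen (y ⁻¹' U) ∧ IsOpen (z ⁻¹' U) ∧ ∀ b, z b ∈ U → ∀ a, y a ∈ U := Iff.rfl

lemma y_cont : Continuous y := continuous_def.2 fun _ h => h.1
lemma z_cont : Continuous z := continuous_def.2 fun _ h => h.2.1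

lemma open1 {S : Set YY} (hS : IsOpen S) {R : Set XX} (hR : R ⊆ {p}) : IsOpen (y '' S ∪ R) := by
  refine openX.2 ⟨?_, ?_, ?_⟩
  · convert hS using 1
    ext a
    constructor
    · rintro (⟨b, hb, h⟩ | h)
      · cases h; exact hb
      · cases hR h
    · exact fun h => Or.inl ⟨a, h, rfl⟩
  · convert isOpen_empty using 1
    ext a
    constructor
    · rintro (⟨b, hb, h⟩ | h)
      · cases h
      · cases hR h
    · exact fun h => h.elim
  · rintro b (⟨a, ha, h⟩ | h)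
    · cases h
    · cases hR h

lemma open2 {S : Set ZZ} (hS : IsOpen S) {R : Set XX} (hR : R ⊆ {p}) :
    IsOpen (z '' S ∪ (range y ∪ R)) := by
  refine openX.2 ⟨?_, ?_, ?_⟩
  · convert isOpen_univ using 1
    exact eq_univ_of_forall fun a => Or.inr (Or.inl ⟨a, rfl⟩)
  · convert hS using 1
    ext a
    constructor
    · rintro (⟨b, hb, h⟩ | ⟨b, h⟩ | h)
      · cases h; exact hb
      · cases h
      · cases hR h
    · exact fun h => Or.inl ⟨a, h, rfl⟩
  · exact fun b _ a => Or.inr (Or.inl ⟨a, rfl⟩)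

instance : T0Space XX := by
  have h1 : IsOpen (y '' ∅ ∪ {p} : Set XX) := open1 isOpen_empty subset_rfl
  have h2 : IsOpen (y '' univ ∪ ∅ : Set XX) := open1 isOpen_univ (empty_subset _)
  refine ⟨fun a b h => ?_⟩
  have e1 := h.mem_open_iff h1
  have e2 := h.mem_open_iff h2
  cases a with
  | p => cases b <;> simp_all
  | y a =>
    cases b with
    | p => simp at e1
    | z b => simp at e2
    | y b =>
      congr 1
      refine Inseparable.eq (inseparable_iff_forall_isOpen.2 fun S hS => ?_)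
      simpa using h.mem_open_iff (open1 hS (empty_subset _))
  | z a =>
    cases b with
    | p => simp at e1
    | y b => simp at e2
    | z b =>
      congr 1
      refine Inseparable.eq (inseparable_iff_forall_isOpen.2 fun S hS => ?_)
      simpa using h.mem_open_iff (open2 hS (empty_subset _))

lemma FC_X : FC XX := by
  intro F hF U hU
  by_cases h : ∃ b, z b ∈ U
  · obtain ⟨b, hb⟩ := h
    refine glue FC_Z z z_cont (range y ∪ U ∩ {p}) ({z b} ∪ U ∩ {p})
      ((finite_singleton _).union ((finite_singleton p).subset inter_subset_right))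
      (fun S hS => open2 hS inter_subset_right) F hF U hU ?_
      (union_subset (singleton_subset_iff.2 hb) inter_subset_left) ?_
    · intro x hx
      cases x with
      | p => exact Or.inr (Or.inr ⟨hx, rfl⟩)
      | y a => exact Or.inr (Or.inl ⟨a, rfl⟩)
      | z a => exact Or.inl ⟨a, hx, rfl⟩
    · intro V hV hE
      refine union_subset ?_ (subset_union_right.trans hE)
      rintro _ ⟨a, rfl⟩
      exact hV.2.2 b (hE (Or.inl rfl)) a
  · refine glue FC_Y y y_cont (U ∩ {p}) (U ∩ {p})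
      ((finite_singleton p).subset inter_subset_right)
      (fun S hS => open1 hS inter_subset_right) F hF U hU ?_ inter_subset_left fun _ _ h => h
    intro x hx
    cases x with
    | p => exact Or.inr ⟨hx, rfl⟩
    | y a => exact Or.inl ⟨a, hx, rfl⟩
    | z a => exact absurd ⟨a, hx⟩ h

lemma diss {P : Type} [TopologicalSpace P] (a : YY → P) (b : ZZ → P) (ha : Continuous a)
    (hb : Continuous b) (s : Set YY → Set P) (t : Set ZZ → Set P)
    (hso : ∀ A, IsOpen A → IsOpen (s A)) (hto : ∀ B, IsOpen B → IsOpen (t B))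
    (hsm : Monotone s) (htm : Monotone t)
    (hs : ∀ W : ℕ → Set YY, Monotone W → (∀ n, IsOpen (W n)) → (∀ x, ∃ n, x ∈ W n) →
      ∀ x ∈ s univ, ∃ n, x ∈ s (W n))
    (ht : ∀ W : ℕ → Set ZZ, Monotone W → (∀ n, IsOpen (W n)) → (∀ x, ∃ n, x ∈ W n) →
      ∀ x ∈ t univ, ∃ n, x ∈ t (W n))
    (hsa : ∀ A x, IsOpen A → a x ∈ s A → x ∈ A) (htb : ∀ B x, IsOpen B → b x ∈ t B → x ∈ B)
    (ha' : ∀ x, a x ∈ s univ ∩ t univ) (hb' : ∀ x, b x ∈ s univ ∩ t univ) : ¬ Cons P := by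
  intro h
  classical
  obtain ⟨K, hK, hKU, hKF⟩ := h {U | IsOpen U ∧ ∃ f : ZZ, (∀ n, a (n, f n) ∈ U) ∧ b f ∈ U}
    ⟨fun U hU => hU.1, by
      rintro U V ⟨-, f, h1, h2⟩ hV h
      exact ⟨hV, f, fun n => h (h1 n), h h2⟩, by
      rintro D - hDo hdir ⟨-, f, h1, U1, hU1, h2⟩
      obtain ⟨N, hN⟩ := openZ.1 ((hDo U1 hU1).preimage hb) f h2
      have key : ∀ M : ℕ, ∃ U ∈ D, U1 ⊆ U ∧ ∀ i < M, a (i, f i) ∈ U := by
        intro M
        induction M with
        | zero => exact ⟨U1, hU1, subset_rfl, fun i hi => absurd hi (Nat.not_lt_zero i)⟩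
        | succ M ih =>
          obtain ⟨U, hU, h3, h4⟩ := ih
          obtain ⟨V, hV, h5⟩ := h1 M
          obtain ⟨W, hW, h6, h7⟩ := hdir U hU V hV
          refine ⟨W, hW, h3.trans h6, fun i hi => ?_⟩
          rcases Nat.lt_succ_iff_lt_or_eq.1 hi with h | rfl
          · exact h6 (h4 i h)
          · exact h7 h5
      obtain ⟨U, hU, h3, h4⟩ := key (N + 1)
      choose m hm using (openY.1 ((hDo U hU).preimage ha)).2 ⟨_, h4 0 (Nat.succ_pos N)⟩
      refine ⟨U, hU, hDo U hU, fun i => if i < N then f i else m i, fun n => ?_, h3 (hN _ ?_)⟩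
      · by_cases hn : n < N
        · simp only [if_pos hn]; exact h4 n (by omega)
        · simp only [if_neg hn]; exact hm n
      · intro i hi
        simp only [if_pos hi]; exact le_rfl⟩
    (s univ ∩ t univ) ⟨(hso _ isOpen_univ).inter (hto _ isOpen_univ), fun _ => 0,
      fun n => ha' _, hb' _⟩
  have h1 : ∃ n, ∀ k, K ⊆ s (UY fun i => if i = n then k else 0) := by
    by_contra hcon
    push Not at hcon
    choose k hk using hcon
    let W : ℕ → Set YY := fun N => UY fun i => if i < N then 0 else k i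
    have hWm : Monotone W := by
      intro N M h x hx
      simp only [W, UY, mem_ofPred_eq] at hx ⊢
      split_ifs at hx ⊢ <;> omega
    obtain ⟨N, hN⟩ := hK.elim_directed_cover (fun N => s (W N)) (fun N => hso _ (UY_open _))
      (fun x hx => mem_iUnion.2 (hs W hWm (fun N => UY_open _)
        (fun x => ⟨x.1 + 1, by simp [W, UY]⟩) x (hKU hx).1))
      (Monotone.directed_le (fun N M h => hsm (hWm h)))
    refine hk N (hN.trans (hsm fun x hx => ?_))
    simp only [W, UY, mem_ofPred_eq] at hx ⊢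
    by_cases h1 : x.1 = N
    · rw [if_pos h1]
      rw [if_neg (by omega), h1] at hx
      exact hx
    · rw [if_neg h1]; exact Nat.zero_le _
  obtain ⟨n, hn⟩ := h1
  have hBm : Monotone (BZ n) := fun _ _ h _ hx => le_trans hx h
  obtain ⟨k, hk⟩ := hK.elim_directed_cover (fun k => t (BZ n k)) (fun k => hto _ (BZ_open _ _))
    (fun x hx => mem_iUnion.2 (ht (BZ n) hBm (BZ_open n)
      (fun x => ⟨x n, le_refl (x n)⟩) x (hKU hx).2))
    (Monotone.directed_le (fun N M h => htm (hBm h)))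
  obtain ⟨-, f, h1, h2⟩ := hKF _ ((hso _ (UY_open _)).inter (hto _ (BZ_open n k)))
    (subset_inter (hn (k + 1)) hk)
  have h3 := hsa _ _ (UY_open _) (h1 n).1
  have h4 : f n ≤ k := htb _ _ (BZ_open n k) h2.2
  simp only [UY, mem_ofPred_eq, if_true] at h3
  omega

def PS (X : Type) [TopologicalSpace X] : Type :=
  {K : Set X // K.Nonempty ∧ IsCompact K ∧
    ∀ x : X, (∀ U : Set X, IsOpen U → K ⊆ U → x ∈ U) → x ∈ K}

instance (X : Type) [TopologicalSpace X] : TopologicalSpace (PS X) :=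
  TopologicalSpace.generateFrom {S | ∃ U : Set X, IsOpen U ∧ S = {K | K.1 ⊆ U}}

lemma box_open {X : Type} [TopologicalSpace X] {U : Set X} (hU : IsOpen U) :
    IsOpen {K : PS X | K.1 ⊆ U} :=
  TopologicalSpace.isOpen_generateFrom_of_mem ⟨U, hU, rfl⟩

def sat {X : Type} [TopologicalSpace X] (S : Set X) (h1 : S.Nonempty) (h2 : IsCompact S) : PS X :=
  ⟨nhdsKer S, h1.mono subset_nhdsKer, h2.nhdsKer, fun x hx => by
    rw [nhdsKer_def]
    rintro U ⟨hU, hSU⟩
    exact hx U hU (hU.nhdsKer_subset.2 hSU)⟩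

lemma sat_sub {X : Type} [TopologicalSpace X] {S : Set X} (h1 : S.Nonempty) (h2 : IsCompact S)
    {U : Set X} (hU : IsOpen U) : (sat S h1 h2).1 ⊆ U ↔ S ⊆ U := hU.nhdsKer_subset

lemma not_cons_PS : ¬ Cons (PS XX) := by
  have hp : IsOpen ({p}ᶜ : Set XX) :=
    openX.2 ⟨by convert isOpen_univ using 1; ext; simp,
      by convert isOpen_univ using 1; ext; simp, by simp⟩
  refine diss (fun x => sat {y x, p} (insert_nonempty _ _) (toFinite _).isCompact)
    (fun x => sat {z x} (singleton_nonempty _) isCompact_singleton) ?_ ?_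
    (fun A => {K | K.1 ⊆ y '' A ∪ {p}} ∪ {K | K.1 ⊆ {p}ᶜ})
    (fun B => {K | K.1 ⊆ z '' B ∪ (range y ∪ {p})})
    (fun A hA => (box_open (open1 hA subset_rfl)).union (box_open hp))
    (fun B hB => box_open (open2 hB subset_rfl))
    (fun A B h => union_subset_union_left _ fun K hK =>
      hK.trans (union_subset_union_left _ (image_mono h)))
    (fun A B h K hK => hK.trans (union_subset_union_left _ (image_mono h))) ?_ ?_ ?_ ?_ ?_ ?_
  · refine continuous_generateFrom_iff.2 ?_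
    rintro _ ⟨U, hU, rfl⟩
    simp only [preimage_ofPred_eq, sat_sub _ _ hU, insert_subset_iff, singleton_subset_iff]
    exact (hU.preimage y_cont).inter isOpen_const
  · refine continuous_generateFrom_iff.2 ?_
    rintro _ ⟨U, hU, rfl⟩
    simp only [preimage_ofPred_eq, sat_sub _ _ hU, singleton_subset_iff]
    exact hU.preimage z_cont
  · rintro W hW hWo hWc K (hK | hK)
    · obtain ⟨n, hn⟩ := K.2.2.1.elim_directed_cover (fun n => y '' W n ∪ {p})
        (fun n => open1 (hWo n) subset_rfl) (fun x hx => by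
          rcases hK hx with ⟨a, -, rfl⟩ | h
          · obtain ⟨n, hn⟩ := hWc a
            exact mem_iUnion.2 ⟨n, Or.inl ⟨a, hn, rfl⟩⟩
          · exact mem_iUnion.2 ⟨0, Or.inr h⟩)
        (Monotone.directed_le fun n m h => union_subset_union_left _ (image_mono (hW h)))
      exact ⟨n, Or.inl hn⟩
    · exact ⟨0, Or.inr hK⟩
  · intro W hW hWo hWc K hK
    exact K.2.2.1.elim_directed_cover (fun n => z '' W n ∪ (range y ∪ {p}))
        (fun n => open2 (hWo n) subset_rfl) (fun x hx => by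
          rcases hK hx with ⟨a, -, rfl⟩ | h
          · obtain ⟨n, hn⟩ := hWc a
            exact mem_iUnion.2 ⟨n, Or.inl ⟨a, hn, rfl⟩⟩
          · exact mem_iUnion.2 ⟨0, Or.inr h⟩)
        (Monotone.directed_le fun n m h => union_subset_union_left _ (image_mono (hW h)))
  · rintro A x hA (h | h)
    · have := (sat_sub _ _ (open1 hA subset_rfl)).1 h (Or.inl rfl)
      simpa using this
    · exact absurd rfl ((sat_sub _ _ hp).1 h (Or.inr rfl))
  · intro B x hB h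
    have := (sat_sub _ _ (open2 hB subset_rfl)).1 h rfl
    simpa using this
  · intro x
    refine ⟨Or.inl ((sat_sub _ _ (open1 isOpen_univ subset_rfl)).2 ?_),
      (sat_sub _ _ (open2 isOpen_univ subset_rfl)).2 ?_⟩ <;>
    simp [insert_subset_iff]
  · intro x
    refine ⟨Or.inr ((sat_sub _ _ hp).2 ?_),
      (sat_sub _ _ (open2 isOpen_univ subset_rfl)).2 ?_⟩ <;> simp

def PH (X : Type) [TopologicalSpace X] : Type := {C : Set X // IsClosed C ∧ C.Nonempty}

instance (X : Type) [TopologicalSpace X] : TopologicalSpace (PH X) :=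
  TopologicalSpace.generateFrom {S | ∃ U : Set X, IsOpen U ∧ S = {C | (C.1 ∩ U).Nonempty}}

lemma dia_open {X : Type} [TopologicalSpace X] {U : Set X} (hU : IsOpen U) :
    IsOpen {K : PH X | (K.1 ∩ U).Nonempty} :=
  TopologicalSpace.isOpen_generateFrom_of_mem ⟨U, hU, rfl⟩

def cl {X : Type} [TopologicalSpace X] (S : Set X) (h1 : S.Nonempty) : PH X :=
  ⟨closure S, isClosed_closure, h1.closure⟩

lemma cl_iff {X : Type} [TopologicalSpace X] {S : Set X} (h1 : S.Nonempty)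
    {U : Set X} (hU : IsOpen U) : ((cl S h1).1 ∩ U).Nonempty ↔ (S ∩ U).Nonempty :=
  closure_inter_open_nonempty_iff hU

lemma not_cons_PH : ¬ Cons (PH XX) := by
  refine diss (fun x => cl {y x} (singleton_nonempty _))
    (fun x => cl {z x, p} (insert_nonempty _ _)) ?_ ?_
    (fun A => {K | (K.1 ∩ (y '' A ∪ {p})).Nonempty})
    (fun B => {K | (K.1 ∩ (z '' B ∪ (range y ∪ ∅))).Nonempty})
    (fun A hA => dia_open (open1 hA subset_rfl))
    (fun B hB => dia_open (open2 hB (empty_subset _)))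
    (fun A B h K hK => hK.mono
      (inter_subset_inter_right _ (union_subset_union_left _ (image_mono h))))
    (fun A B h K hK => hK.mono
      (inter_subset_inter_right _ (union_subset_union_left _ (image_mono h)))) ?_ ?_ ?_ ?_ ?_ ?_
  · refine continuous_generateFrom_iff.2 ?_
    rintro _ ⟨U, hU, rfl⟩
    simp only [preimage_ofPred_eq, cl_iff _ hU, singleton_inter_nonempty]
    exact hU.preimage y_cont
  · refine continuous_generateFrom_iff.2 ?_
    rintro _ ⟨U, hU, rfl⟩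
    have : ∀ x, (({z x, p} : Set XX) ∩ U).Nonempty ↔ z x ∈ U ∨ p ∈ U := by
      intro x
      constructor
      · rintro ⟨_, rfl | rfl, h⟩
        · exact Or.inl h
        · exact Or.inr h
      · rintro (h | h)
        · exact ⟨_, Or.inl rfl, h⟩
        · exact ⟨_, Or.inr rfl, h⟩
    simp only [preimage_ofPred_eq, cl_iff _ hU, this]
    exact (hU.preimage z_cont).union isOpen_const
  · rintro W - - hWc K ⟨x, hx, ⟨a, -, rfl⟩ | h⟩
    · obtain ⟨n, hn⟩ := hWc a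
      exact ⟨n, _, hx, Or.inl ⟨a, hn, rfl⟩⟩
    · exact ⟨0, _, hx, Or.inr h⟩
  · rintro W - - hWc K ⟨x, hx, ⟨a, -, rfl⟩ | h⟩
    · obtain ⟨n, hn⟩ := hWc a
      exact ⟨n, _, hx, Or.inl ⟨a, hn, rfl⟩⟩
    · exact ⟨0, _, hx, Or.inr h⟩
  · intro A x hA h
    have := (cl_iff _ (open1 hA subset_rfl)).1 h
    simpa using this
  · intro B x hB h
    obtain ⟨_, rfl | rfl, h⟩ := (cl_iff _ (open2 hB (empty_subset _))).1 h
    · simpa using h
    · simp at h
  · intro x
    exact ⟨(cl_iff _ (open1 isOpen_univ subset_rfl)).2 ⟨_, rfl, by simp⟩,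
      (cl_iff _ (open2 isOpen_univ (empty_subset _))).2 ⟨_, rfl, by simp⟩⟩
  · intro x
    exact ⟨(cl_iff _ (open1 isOpen_univ subset_rfl)).2 ⟨p, by simp, by simp⟩,
      (cl_iff _ (open2 isOpen_univ (empty_subset _))).2 ⟨z x, by simp, by simp⟩⟩

end Pool.Agent.H.MP_badb58_gt
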